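import Pool.Agent.FS.DivDeg.Ori

set_option autoImplicit false
open Pool.Agent.Lib.MP_ae5681_co Pool.Agent.FS.DivDeg.Ori

namespace Pool.Agent.Results.MP_ae5681_co.OrientedDivisible

/-- For every finite tree `T` with `m ≥ 1` edges, every finite simple graph `G` with an orientation
`A` all of whose out-degrees and in-degrees are multiples of `m` that are zero or at least
`2048 * m ^ 7` has a partition of its edge set into classes each of which is the edge set of a
subgraph isomorphic to `T`. -/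
theorem result {W V : Type} [Finite W] [Finite V]
    (T : SimpleGraph W) (hT : T.IsTree) (hm1 : 1 ≤ T.edgeSet.ncard) (G : SimpleGraph V)
    (A : V → V → Prop) (hA : ∀ x y, G.Adj x y ↔ A x y ∨ A y x) (hA' : ∀ x y, A x y → ¬ A y x)
    (hout : ∀ v, T.edgeSet.ncard ∣ {w | A v w}.ncard ∧
      ({w | A v w}.ncard = 0 ∨ 2048 * T.edgeSet.ncard ^ 7 ≤ {w | A v w}.ncard))
    (hin : ∀ v, T.edgeSet.ncard ∣ {w | A w v}.ncard ∧
      ({w | A w v}.ncard = 0 ∨ 2048 * T.edgeSet.ncard ^ 7 ≤ {w | A w v}.ncard)) :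
    ∃ P : Partition G.edgeSet,
      ∀ C ∈ P, ∃ H : G.Subgraph, H.edgeSet = C ∧ Nonempty (T ≃g H.coe) := by
  classical
  have := Fintype.ofFinite W
  have := Fintype.ofFinite V
  obtain ⟨pos, par, hp1, hp2, hp3, hpar, hadj⟩ := exists_numbering T hT
  set m := T.edgeSet.ncard with hm
  have hends : ∀ e : G.edgeSet, ∃ x y, e.1 = s(x, y) ∧ A x y := by
    rintro ⟨e, he⟩
    induction e using Sym2.ind with
    | _ x y =>
      rcases (hA x y).1 he with h | h
      · exact ⟨x, y, rfl, h⟩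
      · exact ⟨y, x, Sym2.eq_swap, h⟩
  choose s t hst hAst using hends
  have hj : ∀ e x y, Joins s t e x y → e.1 = s(x, y) := by
    intro e x y h
    rw [hst e]
    exact Sym2.eq_iff.2 h
  have hadjG : ∀ e x y, Joins s t e x y → G.Adj x y := by
    intro e x y h
    have := e.2
    rwa [hj e x y h] at this
  have hloop : ∀ e, s e ≠ t e := fun e => (hadjG e _ _ (Or.inl ⟨rfl, rfl⟩)).ne
  have hsur : ∀ x y, A x y → ∃ e, s e = x ∧ t e = y := by
    intro x y h
    have he : s(x, y) ∈ G.edgeSet := (hA x y).2 (Or.inl h)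
    refine ⟨⟨_, he⟩, ?_⟩
    rcases Sym2.eq_iff.1 (hst ⟨_, he⟩) with ⟨a, b⟩ | ⟨a, b⟩
    · exact ⟨a.symm, b.symm⟩
    · have h' := hAst ⟨_, he⟩
      rw [← a, ← b] at h'
      exact absurd h' (hA' _ _ h)
  have hbig : ∀ n d : ℕ, n = m * d → (n = 0 ∨ 2048 * m ^ 7 ≤ n) → d = 0 ∨ 2048 * m ^ 6 ≤ d := by
    rintro _ d rfl (h | h)
    · exact Or.inl ((Nat.mul_eq_zero.1 h).resolve_left (by omega))
    · rw [show 2048 * m ^ 7 = m * (2048 * m ^ 6) by ring] at h
      exact Or.inr (Nat.le_of_mul_le_mul_left h (by omega))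
  choose o ho using fun v => (hout v).1
  choose i hi using fun v => (hin v).1
  obtain ⟨k, φ, ε, h1, h2, h3⟩ := decomp_or s t hloop
    (fun e e' x y h h' => Subtype.ext ((hj e x y h).trans (hj e' x y h').symm)) m hm1 par hpar o i
    (fun v => hbig _ _ (ho v) (hout v).2) (fun v => hbig _ _ (hi v) (hin v).2)
    (fun v => by
      rw [← ho v, Set.ncard_eq_toFinset_card']
      refine Finset.card_bij (fun e _ => t e) (fun e he => ?_) (fun e he e' he' h => ?_)
        fun w hw => ?_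
      · exact Set.mem_toFinset.2 ((Finset.mem_filter.1 he).2 ▸ hAst e)
      · refine Subtype.ext ?_
        rw [hst e, hst e', (Finset.mem_filter.1 he).2, (Finset.mem_filter.1 he').2, h]
      · obtain ⟨e, a, b⟩ := hsur v w (Set.mem_toFinset.1 hw)
        exact ⟨e, Finset.mem_filter.2 ⟨Finset.mem_univ _, a⟩, b⟩)
    (fun v => by
      rw [← hi v, Set.ncard_eq_toFinset_card']
      refine Finset.card_bij (fun e _ => s e) (fun e he => ?_) (fun e he e' he' h => ?_)
        fun w hw => ?_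
      · exact Set.mem_toFinset.2 ((Finset.mem_filter.1 he).2 ▸ hAst e)
      · refine Subtype.ext ?_
        rw [hst e, hst e', (Finset.mem_filter.1 he).2, (Finset.mem_filter.1 he').2, h]
      · obtain ⟨e, a, b⟩ := hsur w v (by simpa using hw)
        exact ⟨e, Finset.mem_filter.2 ⟨Finset.mem_univ _, b⟩, a⟩)
  let f : Fin k → T.Copy G := fun x =>
    { toHom := ⟨fun w => φ x (pos w), fun {u v} h => by
        rcases (hadj u v).1 h with ⟨a1, a2⟩ | ⟨a1, a2⟩
        · have := hadjG _ _ _ (h1 x _ a1 (hp1 v))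
          rwa [a2] at this
        · have := hadjG _ _ _ (h1 x _ a1 (hp1 u))
          rw [a2] at this
          exact this.symm⟩
      injective' := fun u v h => by
        apply hp2
        rcases lt_trichotomy (pos u) (pos v) with a1 | a1 | a1
        · exact absurd h (h2 x _ _ a1 (hp1 v))
        · exact a1
        · exact absurd h.symm (h2 x _ _ a1 (hp1 u)) }
  have key : ∀ e (he : e ∈ G.edgeSet) x,
      e ∈ (f x).toSubgraph.edgeSet ↔ ∃ c, 1 ≤ c ∧ c ≤ m ∧ ε x c = ⟨e, he⟩ := by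
    intro e he x
    rw [SimpleGraph.Subgraph.edgeSet_map, SimpleGraph.Subgraph.edgeSet_top]
    constructor
    · rintro ⟨z, hz, h4⟩
      induction z using Sym2.ind with
      | _ u v =>
        have h5 : s(φ x (pos u), φ x (pos v)) = e := h4
        rcases (hadj u v).1 hz with ⟨a1, a2⟩ | ⟨a1, a2⟩
        · refine ⟨pos v, a1, hp1 v, Subtype.ext ?_⟩
          rw [hj _ _ _ (h1 x _ a1 (hp1 v)), a2]
          exact h5
        · refine ⟨pos u, a1, hp1 u, Subtype.ext ?_⟩
          rw [hj _ _ _ (h1 x _ a1 (hp1 u)), a2, Sym2.eq_swap]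
          exact h5
    · rintro ⟨c, a1, a2, a3⟩
      obtain ⟨v, rfl⟩ := hp3 c a2
      obtain ⟨u, hu⟩ := hp3 (par (pos v)) (by have := hpar _ a1; omega)
      refine ⟨s(u, v), (hadj u v).2 (Or.inl ⟨a1, hu.symm⟩), ?_⟩
      have h5 := hj _ _ _ (h1 x _ a1 a2)
      rw [a3, ← hu] at h5
      exact h5.symm
  have huniq : ∀ e ∈ G.edgeSet, ∃! x, e ∈ (f x).toSubgraph.edgeSet := by
    intro e he
    simp only [key e he]
    exact h3 ⟨e, he⟩
  refine ⟨⟨Set.range fun x => (f x).toSubgraph.edgeSet, Set.PairwiseDisjoint.sSupIndep ?_, ?_, ?_⟩,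
    ?_⟩
  · rintro _ ⟨x, rfl⟩ _ ⟨y, rfl⟩ hne
    refine Set.disjoint_left.2 fun e e1 e2 => hne ?_
    rw [(huniq e ((f x).toSubgraph.edgeSet_subset e1)).unique e1 e2]
  · rintro ⟨x, hx⟩
    have h4 := (key (ε x 1).1 (ε x 1).2 x).2 ⟨1, le_rfl, hm1, rfl⟩
    have h5 : (f x).toSubgraph.edgeSet = ∅ := hx
    rw [h5] at h4
    exact h4
  · refine Set.Subset.antisymm ?_ fun e he => ?_
    · rintro e ⟨_, ⟨x, rfl⟩, h4⟩
      exact (f x).toSubgraph.edgeSet_subset h4
    · obtain ⟨x, hx⟩ := (huniq e he).exists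
      exact ⟨_, ⟨x, rfl⟩, hx⟩
  · rintro _ ⟨x, rfl⟩
    exact ⟨(f x).toSubgraph, rfl, ⟨(f x).isoToSubgraph⟩⟩

end Pool.Agent.Results.MP_ae5681_co.OrientedDivisible
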